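import Pool.Agent.Lib.helper16.AR2

set_option autoImplicit false

open MeasureTheory Pool.Agent.Lib.helper16.AR

namespace Pool.Agent.Results.MP_3ace2b_pr.NotAR

/-- The free group of rank two is not algebraically recurrent. -/
theorem result [MeasurableSpace (FreeGroup (Fin 2))] [DiscreteMeasurableSpace (FreeGroup (Fin 2))] :
    ∃ μ : PMF (FreeGroup (Fin 2)), Adm μ ∧ 0 < law μ {ω | Sg ω 1 ≠ ⊤} := by
  obtain ⟨μ, h1, h2⟩ := nonAR_LZ (FreeGroup.lift ![LZ.a, LZ.t]) (FreeGroup.of 0) (FreeGroup.of 1)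
    (by simp) (by simp) (by
      rw [← FreeGroup.closure_range_of]
      congr 1
      ext x
      simp [Fin.exists_fin_two, eq_comm])
  exact ⟨μ, h1, pos_iff_ne_zero.2 fun h => h2 (ae_iff.2 h)⟩

end Pool.Agent.Results.MP_3ace2b_pr.NotAR
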